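import Mathlib
import Pool.Agent.Lib.MP_6f03fc_co.Defs
import Pool.Agent.Lib.MP_6f03fc_co.Final

/-!
# The gap between simplicial and topological index of order complexes is arbitrary

Full positive answer to Q1: for every finite group `G` with at least two elements and all
`m > n ≥ 1` there is a finite free `G`-poset `P` with `sind ΔP = m` and `ind ΔP = n`.
-/

namespace Pool.Agent.Results.MP_6f03fc_co.IndexGap

open Pool.Agent.IndexGap

/-- For every finite group `G` with at least two elements and all natural numbers `m ≥ n ≥ 1`
there is a finite free `G`-poset `P` with `sind ΔP = m` and `ind ΔP = n`. -/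
theorem result (G : Type) [Group G] [Fintype G] [DecidableEq G] (hG : 2 ≤ Fintype.card G)
    (m n : ℕ) (hn : 1 ≤ n) (hnm : n ≤ m) :
    ∃ (P : Type) (_ : Fintype P) (_ : PartialOrder P) (_ : MulAction G P),
      (∀ (g : G) (a b : P), a ≤ b → g • a ≤ g • b) ∧
      (∀ (g : G) (a : P), g • a = a → g = 1) ∧
      SimpIndexEq G (orderComplex P) m ∧ TopIndexEq G (orderComplex P) n := by
  haveI : Nontrivial G := Fintype.one_lt_card_iff_nontrivial.1 hG
  exact index_gap G m n hn hnm

end Pool.Agent.Results.MP_6f03fc_co.IndexGap
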